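import Pool.Agent.Y410.KPC

/-!
# Kernel-perfectness and the cycles of one-way arcs

By a theorem of Duchet a digraph whose one-way arcs form no directed cycle is kernel-perfect. Here
the next cases are classified.

* If the one-way arcs form exactly one directed cycle, and this cycle is Hamiltonian, then
  KERNEL-PERFECTNESS is `NP`-complete.
* If the one-way arcs form a directed cycle in which some vertices have been doubled, then
  KERNEL-PERFECTNESS is `Π₂ᵖ`-complete. In this case there is a vertex whose deletion leaves a
  kernel-perfect digraph.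

So already on the first class the problem is in `coNP` only if `NP = coNP`, and on the second class
it is in `NP` only if `NP = coNP`.
-/

namespace Pool.Agent.Results.MP_8f64b1_lc.OneWayCycles

open Pool.Agent.NPC Pool.Agent.NPC.P2 Pool.Agent.NPC.KP Pool.Agent.Y410.KP

theorem result :
    -- the one-way arcs form a directed Hamiltonian cycle: `NP`-complete
    (InNP (lang fun D : DG => KernelPerfect D ∧ OneWayHamiltonian D) ∧
      HardOn InNP OneWayHamiltonian ∧
      ((∃ L₀, InCoNP L₀ ∧ Solves L₀ OneWayHamiltonian) ↔
        ∀ L : Set (List Bool), InNP L ↔ InCoNP L)) ∧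
    -- the one-way arcs form a directed cycle with some vertices doubled: `Π₂ᵖ`-complete
    (InPi2 (lang KernelPerfect) ∧
      HardOn InPi2 OneWayDoubled ∧
      ((∃ L₀, InNP L₀ ∧ Solves L₀ OneWayDoubled) ↔
        ∀ L : Set (List Bool), InNP L ↔ InCoNP L)) ∧
    (∀ D : DG, IsDigraph D → OneWayHamiltonian D → OneWayDoubled D) ∧
    -- in both classes the deletion of one vertex leaves a kernel-perfect digraph
    ∀ D : DG, IsDigraph D → OneWayDoubled D → ∃ v ∈ D.1,
      ∀ S : Finset ℕ, (∀ u ∈ S, u ∈ D.1 ∧ u ≠ v) → ∃ K : Finset ℕ, IsKernelOf D S K :=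
  ⟨⟨inNP_hamiltonian, hardOn_hamiltonian, coNP_solves_iff hardOn_hamiltonian⟩,
    ⟨kernelPerfect_inPi2, hardOn_doubled, np_solves_iff hardOn_doubled⟩,
    fun _ hD h => doubled_of_hamiltonian hD h, fun _ hD h => near_perfect hD h⟩

end Pool.Agent.Results.MP_8f64b1_lc.OneWayCycles
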